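import Pool.Agent.H95.FH.Defs

/-!
Part FA of the crew FH (`MP_ce7760_an`).
-/

set_option autoImplicit false

open MvPolynomial Matrix

namespace H33.FH
open H95.FG H95.FH

theorem ev_cp_cv {n m : ℕ} (p : Fin m → MvPolynomial (Fin n) ℂ) (z : Fin n → ℂ) (j : Fin m) :
    ev (cp p) (cv z) j = (starRingEnd ℂ) (ev p z j) := by
  simp only [ev, cp, cj, eval_map]
  have h := eval₂_comp_left (starRingEnd ℂ) (RingHom.id ℂ) z (p j)
  have h2 : eval z (p j) = eval₂ (RingHom.id ℂ) z (p j) := rfl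
  rw [h2, h]
  rfl

theorem cv_cv {n : ℕ} (z : Fin n → ℂ) : cv (cv z) = z := by
  funext k; simp [cv]

theorem cv_eq_star {n : ℕ} (z : Fin n → ℂ) : cv z = star z := by
  funext k; simp [cv]

theorem bl_eq (M : Matrix (Fin 3) (Fin 3) ℂ) (z Y : Fin 3 → ℂ) : bl M z Y = z ⬝ᵥ (M *ᵥ Y) := by
  simp only [bl, dotProduct, mulVec, Finset.mul_sum, mul_assoc]

theorem dt_eq {n : ℕ} (z Y : Fin n → ℂ) : dt z Y = z ⬝ᵥ Y := rfl

/-- the sum of squares -/
theorem sum_sq {m : ℕ} (p : Fin m → MvPolynomial (Fin 3) ℂ) (A : MvPolynomial (Fin 3 ⊕ Fin 3) ℂ)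
    (hK : ∀ z Y, ∑ j, ev p z j * ev (cp p) Y j = dt z Y * AA A z Y)
    (Y : Fin 3 → ℂ) : ((∑ j, ‖ev p (cv Y) j‖ ^ 2 : ℝ) : ℂ) = dt (cv Y) Y * AA A (cv Y) Y := by
  rw [← hK]
  push_cast
  refine Finset.sum_congr rfl fun j _ => ?_
  have h := ev_cp_cv p (cv Y) j
  rw [cv_cv] at h
  rw [h]
  rw [mul_comm, Complex.conj_mul']

theorem ev_zero_of {m : ℕ} (p : Fin m → MvPolynomial (Fin 3) ℂ)
    (A : MvPolynomial (Fin 3 ⊕ Fin 3) ℂ)
    (hK : ∀ z Y, ∑ j, ev p z j * ev (cp p) Y j = dt z Y * AA A z Y)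
    (Y : Fin 3 → ℂ) (h0 : AA A (cv Y) Y = 0) (j : Fin m) : ev p (cv Y) j = 0 := by
  have h := sum_sq p A hK Y
  rw [h0, mul_zero] at h
  have h1 : (∑ j, ‖ev p (cv Y) j‖ ^ 2 : ℝ) = 0 := by exact_mod_cast h
  have h2 := (Finset.sum_eq_zero_iff_of_nonneg (fun j _ => by positivity)).1 h1 j (Finset.mem_univ j)
  have h3 : ‖ev p (cv Y) j‖ = 0 := by
    rcases pow_eq_zero_iff (two_ne_zero) |>.1 h2 with h
    exact h
  exact norm_eq_zero.1 h3

theorem circle_infinite (r : ℝ) (hr : 0 < r) : {w : ℂ | Complex.normSq w * r = 1}.Infinite := by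
  have hinf : (Set.Icc (0 : ℝ) 1).Infinite := Set.Icc_infinite one_pos
  set c : ℝ := Real.sqrt (1 / r) with hc
  have hcpos : 0 < c := Real.sqrt_pos.2 (by positivity)
  have hcc : c * c = 1 / r := Real.mul_self_sqrt (by positivity)
  have hinj : Set.InjOn (fun t : ℝ => (⟨c * t, c * Real.sqrt (1 - t ^ 2)⟩ : ℂ)) (Set.Icc 0 1) := by
    intro t _ t' _ h
    have := congrArg Complex.re h
    simp only at this
    exact mul_left_cancel₀ hcpos.ne' this
  refine (hinf.image hinj).mono ?_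
  rintro _ ⟨t, ht, rfl⟩
  simp only [Set.mem_ofPred_eq, Complex.normSq_mk]
  have hs : Real.sqrt (1 - t ^ 2) * Real.sqrt (1 - t ^ 2) = 1 - t ^ 2 :=
    Real.mul_self_sqrt (by nlinarith [ht.1, ht.2])
  have : c * t * (c * t) + c * Real.sqrt (1 - t ^ 2) * (c * Real.sqrt (1 - t ^ 2)) =
      c * c * (t * t + Real.sqrt (1 - t ^ 2) * Real.sqrt (1 - t ^ 2)) := by ring
  rw [this, hs, hcc]
  field_simp
  ring

/-- a polynomial that vanishes at all `V w`, `w` in a torus, `V` invertible, is zero -/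
theorem torus_zero (q : MvPolynomial (Fin 3) ℂ) (V W : Matrix (Fin 3) (Fin 3) ℂ) (hVW : V * W = 1)
    (r : Fin 3 → ℝ) (hr : ∀ k, 0 < r k)
    (h : ∀ w : Fin 3 → ℂ, (∀ k, Complex.normSq (w k) * r k = 1) → eval (V *ᵥ w) q = 0) :
    q = 0 := by
  set R : MvPolynomial (Fin 3) ℂ := bind₁ (fun l => ∑ k, C (V l k) * X k) q with hR
  have hev : ∀ w, eval w R = eval (V *ᵥ w) q := by
    intro w
    rw [hR]
    have : eval w (bind₁ (fun l => ∑ k, C (V l k) * X k) q) =
        eval (fun l => eval w (∑ k, C (V l k) * X k)) q := by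
      rw [← MvPolynomial.coe_aeval_eq_eval, ← MvPolynomial.coe_aeval_eq_eval]
      simp only [RingHom.coe_coe]
      rw [MvPolynomial.aeval_bind₁]
    rw [this]
    congr 2
    funext l
    simp [mulVec, dotProduct]
  have hR0 : R = 0 := by
    apply MvPolynomial.funext_set (fun k => {w : ℂ | Complex.normSq w * r k = 1})
      (fun k => circle_infinite (r k) (hr k))
    intro x hx
    rw [hev, map_zero]
    exact h x (fun k => hx k (Set.mem_univ k))
  apply MvPolynomial.funext
  intro Z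
  have h1 := hev (W *ᵥ Z)
  rw [hR0, map_zero, mulVec_mulVec, hVW, one_mulVec] at h1
  rw [map_zero]
  exact h1.symm

theorem exists_omega : ∃ ω : ℂ, 1 + ω + ω ^ 2 = 0 := by
  have h := (Complex.isPrimitiveRoot_exp 3 (by norm_num)).geom_sum_eq_zero (by norm_num)
  refine ⟨Complex.exp (2 * ↑Real.pi * Complex.I / 3), ?_⟩
  rw [Finset.sum_range_succ, Finset.sum_range_succ, Finset.sum_range_one] at h
  simpa using h

theorem t_FA (hB : S_BAS) : S_FA := by
  intro m p A hc M1 M2 a s b ha hb hA hMM hM3 hM2 hLI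
  obtain ⟨Y, hLI⟩ := hLI
  obtain ⟨hK, -⟩ := hB m 2 p A hc
  obtain ⟨ω, hω⟩ := exists_omega
  have hω3 : ω ^ 3 = 1 := by linear_combination (ω - 1) * hω
  have hω1 : ω ≠ 1 := by
    rintro rfl
    norm_num at hω
  have hω0 : ω ≠ 0 := by
    rintro rfl
    norm_num at hω
  -- `s ≠ 0`
  have hdet : M1.det ≠ 0 := by
    intro h0
    have := congrArg Matrix.det hMM
    rw [det_mul, h0, mul_zero, det_smul, det_one, mul_one, Fintype.card_fin] at this
    exact ha (pow_eq_zero_iff (three_ne_zero) |>.1 this.symm)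
  have hs : s ≠ 0 := by
    rintro rfl
    have := congrArg Matrix.det hM3
    rw [det_pow, zero_smul, det_zero] at this
    exact hdet (pow_eq_zero_iff (three_ne_zero) |>.1 this)
  obtain ⟨lam, hlam⟩ := IsAlgClosed.exists_pow_nat_eq s (n := 3) (by norm_num)
  have hlam0 : lam ≠ 0 := by
    rintro rfl
    rw [zero_pow three_ne_zero] at hlam
    exact hs hlam.symm
  -- `M1 ^ 2 = (s / a) M1ᴴ`
  have hM2' : M1 ^ 2 = (s / a) • M1.conjTranspose := by
    have h1 : M1.conjTranspose * M1 ^ 3 = a • M1 ^ 2 := by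
      calc M1.conjTranspose * M1 ^ 3 = (M1.conjTranspose * M1) * M1 ^ 2 := by
            rw [pow_succ' M1 2, mul_assoc]
        _ = a • M1 ^ 2 := by rw [hMM]; simp
    rw [hM3] at h1
    have h2 : s • M1.conjTranspose = a • M1 ^ 2 := by
      rw [← h1]; simp
    rw [div_eq_inv_mul, mul_smul, h2, smul_smul, inv_mul_cancel₀ ha, one_smul]
  -- eigenvalues
  set μ : Fin 3 → ℂ := fun k => lam * ω ^ (k : ℕ) with hμ
  have hμ3 : ∀ k, μ k ^ 3 = s := by
    intro k
    simp only [hμ]
    rw [mul_pow, ← pow_mul, mul_comm (k : ℕ) 3, pow_mul, hω3, one_pow, mul_one, hlam]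
  have hμ0 : ∀ k, μ k ≠ 0 := fun k => mul_ne_zero hlam0 (pow_ne_zero _ hω0)
  have hμinj : ∀ k l, k ≠ l → μ k ≠ μ l := by
    have h12 : ω ^ 2 ≠ ω := by
      intro h
      have : ω * (ω - 1) = 0 := by linear_combination h
      rcases mul_eq_zero.1 this with h | h
      · exact hω0 h
      · exact hω1 (sub_eq_zero.1 h)
    have h02 : ω ^ 2 ≠ 1 := by
      intro h
      apply hω1
      have : ω = ω ^ 3 * ω⁻¹ ^ 2 := by field_simp
      rw [this, hω3, one_mul, inv_pow, h, inv_one]
    have a01 : μ 0 ≠ μ 1 := by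
      intro h
      have h : lam * ω ^ 0 = lam * ω ^ 1 := h
      have h := mul_left_cancel₀ hlam0 h
      rw [pow_zero, pow_one] at h
      exact hω1 h.symm
    have a02 : μ 0 ≠ μ 2 := by
      intro h
      have h : lam * ω ^ 0 = lam * ω ^ 2 := h
      have h := mul_left_cancel₀ hlam0 h
      rw [pow_zero] at h
      exact h02 h.symm
    have a12 : μ 1 ≠ μ 2 := by
      intro h
      have h : lam * ω ^ 1 = lam * ω ^ 2 := h
      have h := mul_left_cancel₀ hlam0 h
      rw [pow_one] at h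
      exact h12 h.symm
    intro k l hkl
    fin_cases k <;> fin_cases l
    · exact absurd rfl hkl
    · exact a01
    · exact a02
    · exact a01.symm
    · exact absurd rfl hkl
    · exact a12
    · exact a02.symm
    · exact a12.symm
    · exact absurd rfl hkl
  have hsum : μ 0 + μ 1 + μ 2 = 0 := by
    simp only [hμ]
    simp
    linear_combination lam * hω
  -- eigenvectors
  set u : Fin 3 → (Fin 3 → ℂ) := fun k => μ k ^ 2 • Y + μ k • (M1 *ᵥ Y) + (M1 ^ 2) *ᵥ Y with hu
  have hMu : ∀ k, M1 *ᵥ (u k) = μ k • u k := by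
    intro k
    simp only [hu, mulVec_add, mulVec_smul, mulVec_mulVec]
    have e1 : M1 * M1 = M1 ^ 2 := (pow_two M1).symm
    have e2 : M1 * M1 ^ 2 = s • (1 : Matrix (Fin 3) (Fin 3) ℂ) := by rw [← pow_succ', hM3]
    rw [e1, e2, smul_mulVec, one_mulVec, ← hμ3 k]
    simp only [smul_add, smul_smul]
    rw [show μ k ^ 3 = μ k * μ k ^ 2 by ring, show μ k ^ 2 = μ k * μ k by ring]
    abel
  have hu0 : ∀ k, u k ≠ 0 := by
    intro k h0
    have h1 : μ k ^ 2 • Y + μ k • (M1 *ᵥ Y) + (s / a * b⁻¹) • (M2 *ᵥ Y) = 0 := by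
      rw [← h0]
      simp only [hu]
      rw [hM2', hM2, smul_mulVec, smul_mulVec, smul_smul, mul_assoc, inv_mul_cancel₀ hb, mul_one]
    have h3 := Fintype.linearIndependent_iff.1 hLI ![μ k ^ 2, μ k, s / a * b⁻¹] (by
      simp [Fin.sum_univ_three]
      exact h1) 0
    simp at h3
    exact hμ0 k h3
  -- inner products
  have hip : ∀ k l, (starRingEnd ℂ) (μ k) * μ l * (star (u k) ⬝ᵥ u l) = a * (star (u k) ⬝ᵥ u l) := by
    intro k l
    have h1 : star (M1 *ᵥ u k) ⬝ᵥ (M1 *ᵥ u l) = a * (star (u k) ⬝ᵥ u l) := by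
      rw [star_mulVec, ← dotProduct_mulVec, mulVec_mulVec, hMM, smul_mulVec, one_mulVec,
        dotProduct_smul, smul_eq_mul]
    rw [← h1, hMu, hMu, star_smul, smul_dotProduct, dotProduct_smul, smul_eq_mul, smul_eq_mul]
    change (starRingEnd ℂ) (μ k) * μ l * _ = (starRingEnd ℂ) (μ k) * (μ l * _)
    ring
  have hnn : ∀ k, star (u k) ⬝ᵥ u k = ((∑ i, Complex.normSq (u k i) : ℝ) : ℂ) := by
    intro k
    simp only [dotProduct, Pi.star_apply]
    push_cast
    refine Finset.sum_congr rfl fun i _ => ?_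
    exact Complex.normSq_eq_conj_mul_self.symm
  have hnpos : ∀ k, 0 < ∑ i, Complex.normSq (u k i) := by
    intro k
    have h0 : 0 ≤ ∑ i, Complex.normSq (u k i) :=
      Finset.sum_nonneg fun i _ => Complex.normSq_nonneg _
    rcases h0.lt_or_eq with h | h
    · exact h
    · exfalso
      apply hu0 k
      funext i
      have := (Finset.sum_eq_zero_iff_of_nonneg (fun i _ => Complex.normSq_nonneg _)).1 h.symm i
        (Finset.mem_univ i)
      exact Complex.normSq_eq_zero.1 this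
  have hnz : ∀ k, star (u k) ⬝ᵥ u k ≠ 0 := by
    intro k
    rw [hnn]
    exact_mod_cast (hnpos k).ne'
  have hμa : ∀ k, (starRingEnd ℂ) (μ k) * μ k = a := fun k => mul_right_cancel₀ (hnz k) (hip k k)
  have horth : ∀ k l, k ≠ l → star (u k) ⬝ᵥ u l = 0 := by
    intro k l hkl
    by_contra h
    have h1 := mul_right_cancel₀ h (hip k l)
    rw [← hμa k] at h1
    have h2 := mul_left_cancel₀ ((map_ne_zero _).2 (hμ0 k)) h1
    exact hμinj k l hkl h2.symm
  -- the matrices
  set U : Matrix (Fin 3) (Fin 3) ℂ := Matrix.of fun i k => u k i with hU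
  have hUk : ∀ w : Fin 3 → ℂ, U *ᵥ w = ∑ k, w k • u k := by
    intro w
    funext i
    simp only [mulVec, dotProduct, hU, Matrix.of_apply, Finset.sum_apply, Pi.smul_apply, smul_eq_mul]
    exact Finset.sum_congr rfl fun k _ => mul_comm _ _
  have hUU : U.conjTranspose * U = Matrix.diagonal fun k => star (u k) ⬝ᵥ u k := by
    ext k l
    rw [Matrix.mul_apply, Matrix.diagonal_apply]
    have : ∑ j, U.conjTranspose k j * U j l = star (u k) ⬝ᵥ u l := rfl
    rw [this]
    split_ifs with h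
    · rw [h]
    · exact horth k l h
  have hinv : (Matrix.diagonal (fun k => (star (u k) ⬝ᵥ u k)⁻¹) * U.conjTranspose) * U = 1 := by
    rw [mul_assoc, hUU, Matrix.diagonal_mul_diagonal]
    have : (fun k => (star (u k) ⬝ᵥ u k)⁻¹ * (star (u k) ⬝ᵥ u k)) = fun _ => (1 : ℂ) := by
      funext k
      exact inv_mul_cancel₀ (hnz k)
    rw [this, Matrix.diagonal_one]
  have hinv2 := mul_eq_one_comm.1 hinv
  -- conjugates
  set V : Matrix (Fin 3) (Fin 3) ℂ := U.map (starRingEnd ℂ) with hV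
  set W : Matrix (Fin 3) (Fin 3) ℂ :=
    (Matrix.diagonal (fun k => (star (u k) ⬝ᵥ u k)⁻¹) * U.conjTranspose).map (starRingEnd ℂ) with hW
  have hVW : V * W = 1 := by
    rw [hV, hW, ← Matrix.map_mul, hinv2]
    exact Matrix.map_one _ (map_zero _) (map_one _)
  have hp0 : ∀ j, p j = 0 := by
    intro j
    apply torus_zero (p j) V W hVW (fun k => ∑ i, Complex.normSq (u k i)) hnpos
    intro w hw
    -- the point
    set Y' : Fin 3 → ℂ := U *ᵥ (star w) with hY'
    have hcv : cv Y' = V *ᵥ w := by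
      funext i
      simp only [cv, hY', hV, mulVec, dotProduct, map_sum, map_mul, Matrix.map_apply, Pi.star_apply]
      refine Finset.sum_congr rfl fun k _ => ?_
      congr 1
      exact Complex.conj_conj _
    have hbl : bl M1 (cv Y') Y' = 0 := by
      rw [bl_eq, cv_eq_star, hY', hUk, mulVec_sum]
      simp only [mulVec_smul, hMu, star_sum, star_smul]
      rw [sum_dotProduct]
      simp only [dotProduct_sum, smul_dotProduct, dotProduct_smul, smul_eq_mul]
      have : ∀ k, ∑ l, star w l * (μ l * (star (star w k) * (star (u k) ⬝ᵥ u l))) = μ k := by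
        intro k
        rw [Finset.sum_eq_single k]
        · rw [hnn]
          have h := hw k
          have h1 : star w k * (μ k * (star (star w k) * ((∑ i, Complex.normSq (u k i) : ℝ) : ℂ))) =
              μ k * ((Complex.normSq (w k) : ℂ) * ((∑ i, Complex.normSq (u k i) : ℝ) : ℂ)) := by
            rw [Complex.normSq_eq_conj_mul_self]
            simp only [Pi.star_apply, star_star]
            change (starRingEnd ℂ) (w k) * _ = _
            ring
          rw [h1, ← Complex.ofReal_mul, h, Complex.ofReal_one, mul_one]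
        · intro l _ hl
          rw [horth k l (Ne.symm hl)]
          ring
        · intro h
          exact absurd (Finset.mem_univ k) h
      simp only [this, Fin.sum_univ_three]
      exact hsum
    have hAA : AA A (cv Y') Y' = 0 := by
      rw [hA, hbl, zero_mul]
    have := ev_zero_of p A hK Y' hAA j
    rw [hcv] at this
    exact this
  have hm1 := hc.hm1
  exact hc.sys.1.ne_zero ⟨0, hm1⟩ (hp0 _)

end H33.FH
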