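import Pool.Agent.H33.FH.FA

/-!
Part FB of the crew FH (`MP_ce7760_an`).
-/

set_option autoImplicit false

open MvPolynomial Matrix

namespace H33.FH
open H95.FG H95.FH

/-- a product of bilinear forms that vanishes, the first one with an invertible matrix -/
theorem bl_cancel (M N : Matrix (Fin 3) (Fin 3) ℂ) (L : Matrix (Fin 3) (Fin 3) ℂ)
    (hL : L * M = 1) (h : ∀ z Y, bl M z Y * bl N z Y = 0) : ∀ z Y, bl N z Y = 0 := by
  intro z Y
  by_cases hz : z = 0
  · rw [bl_eq, hz, zero_dotProduct]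
  have hML : M * L = 1 := mul_eq_one_comm.1 hL
  -- a point with `bl M z Y1 ≠ 0`
  have hex : ∃ Y1, bl M z Y1 ≠ 0 := by
    by_contra hno
    push Not at hno
    apply hz
    funext i
    have := hno (L *ᵥ Pi.single i 1)
    rw [bl_eq, mulVec_mulVec, hML, one_mulVec, dotProduct_single, mul_one] at this
    exact this
  obtain ⟨Y1, hY1⟩ := hex
  have h1 : bl N z Y1 = 0 := (mul_eq_zero.1 (h z Y1)).resolve_left hY1
  -- lines
  have add1 : ∀ (K : Matrix (Fin 3) (Fin 3) ℂ) (t : ℂ), bl K z (Y1 + t • Y) =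
      bl K z Y1 + t * bl K z Y := by
    intro K t
    simp only [bl_eq, mulVec_add, mulVec_smul, dotProduct_add, dotProduct_smul, smul_eq_mul]
  by_contra hN
  have k1 : ∀ t : ℂ, t ≠ 0 → bl M z Y1 + t * bl M z Y = 0 := by
    intro t ht
    have := h z (Y1 + t • Y)
    rw [add1, add1, h1, zero_add] at this
    rcases mul_eq_zero.1 this with h | h
    · exact h
    · exact absurd h (mul_ne_zero ht hN)
  have e1 := k1 1 one_ne_zero
  have e2 := k1 (-1) (neg_ne_zero.2 one_ne_zero)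
  apply hY1
  linear_combination (e1 + e2) / 2

theorem t_FB (hB : S_BAS) (hS : S_SWAP) : S_FB := by
  intro m p A hc M1 M2 a b e ha hb hA hR1 hR2 hne hMM hMH hMM2
  obtain ⟨hK, -⟩ := hB m 2 p A hc
  obtain ⟨-, -, -, hsym, -⟩ := hS m 2 p A hc
  -- `M2 ≠ 0`
  have hM20 : M2 ≠ 0 := by
    rintro rfl
    obtain ⟨z, Y, h⟩ := hR2 0 0
    apply h
    simp [bl_eq, dt_eq]
  have hM1sq : M1 * M1 = (a / b) • (1 : Matrix (Fin 3) (Fin 3) ℂ) := by
    rw [hMH, smul_mul_assoc] at hMM
    rw [div_eq_inv_mul, mul_smul, ← hMM, smul_smul, inv_mul_cancel₀ hb, one_smul]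
  have he2 : e * e = a / b := by
    have h1 : M1 * (M1 * M2) = (a / b) • M2 := by
      rw [← mul_assoc, hM1sq, smul_mul_assoc, one_mul]
    rw [hMM2, mul_smul_comm, hMM2, smul_smul] at h1
    have h2 : (e * e - a / b) • M2 = 0 := by
      rw [sub_smul, h1, sub_self]
    rcases smul_eq_zero.1 h2 with h | h
    · exact sub_eq_zero.1 h
    · exact absurd h hM20
  have he0 : e ≠ 0 := by
    rintro rfl
    rw [mul_zero] at he2
    exact div_ne_zero ha hb he2.symm
  -- an inverse of `M1`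
  have hinv : ((e * e)⁻¹ • M1) * M1 = 1 := by
    rw [smul_mul_assoc, hM1sq, ← he2, smul_smul, inv_mul_cancel₀ (mul_ne_zero he0 he0), one_smul]
  -- hermitian symmetry
  have hblc : ∀ (M : Matrix (Fin 3) (Fin 3) ℂ) (z Y : Fin 3 → ℂ), bl M (cv Y) (cv z) =
      (starRingEnd ℂ) (bl M.conjTranspose z Y) := by
    intro M z Y
    simp only [bl, map_sum, map_mul, cv, conjTranspose_apply]
    rw [Finset.sum_comm]
    refine Finset.sum_congr rfl fun k _ => Finset.sum_congr rfl fun l _ => ?_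
    have : (starRingEnd ℂ) (star (M l k)) = M l k := Complex.conj_conj _
    rw [this]
    ring
  have hbls : ∀ (c : ℂ) (M : Matrix (Fin 3) (Fin 3) ℂ) (z Y : Fin 3 → ℂ),
      bl (c • M) z Y = c * bl M z Y := by
    intro c M z Y
    rw [bl_eq, bl_eq, smul_mulVec, dotProduct_smul, smul_eq_mul]
  have hM2H : M2 = b • M2.conjTranspose := by
    have h1 : ∀ z Y, bl M1 z Y * bl (b • M2.conjTranspose - M2) z Y = 0 := by
      intro z Y
      have h := hsym z Y
      rw [hA, hA, hblc, hblc, ← map_mul] at h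
      have h := (starRingEnd ℂ).injective h
      rw [hMH, hbls] at h
      have : bl (b • M2.conjTranspose - M2) z Y = b * bl M2.conjTranspose z Y - bl M2 z Y := by
        rw [← hbls]
        simp only [bl_eq, sub_mulVec, dotProduct_sub]
      rw [this]
      linear_combination h
    have h2 := bl_cancel M1 _ _ hinv h1
    have h3 : b • M2.conjTranspose - M2 = 0 := by
      ext i j
      have := h2 (Pi.single i 1) (Pi.single j 1)
      rw [bl_eq, single_dotProduct, one_mul, mulVec_single_one] at this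
      simpa using this
    exact (sub_eq_zero.1 h3).symm
  -- `M2 M1 = e M2`
  have hM21 : M2 * M1 = (b⁻¹ * (starRingEnd ℂ) e) • M2 := by
    have h1 : (M1 * M2).conjTranspose = (starRingEnd ℂ) e • M2.conjTranspose := by
      rw [hMM2, conjTranspose_smul]; rfl
    rw [conjTranspose_mul, hMH, mul_smul_comm] at h1
    have h2 : b • (M2 * M1) = (starRingEnd ℂ) e • M2 := by
      calc b • (M2 * M1) = b • ((b • M2.conjTranspose) * M1) := by rw [← hM2H]
        _ = b • (b • (M2.conjTranspose * M1)) := by rw [smul_mul_assoc]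
        _ = b • ((starRingEnd ℂ) e • M2.conjTranspose) := by rw [h1]
        _ = (starRingEnd ℂ) e • (b • M2.conjTranspose) := smul_comm _ _ _
        _ = (starRingEnd ℂ) e • M2 := by rw [← hM2H]
    rw [mul_smul, ← h2, smul_smul, inv_mul_cancel₀ hb, one_smul]
  have hbe : b⁻¹ * (starRingEnd ℂ) e = e := by
    -- `M2 * M1 * M2` in two ways and `M2 * M2 ≠ 0`
    have h1 : M2 * (M1 * M2) = e • (M2 * M2) := by rw [hMM2, mul_smul_comm]
    rw [← mul_assoc, hM21, smul_mul_assoc] at h1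
    have hM22 : M2 * M2 ≠ 0 := by
      intro h0
      apply hM20
      have h3 : M2.conjTranspose * M2 = 0 := by
        have : b • (M2.conjTranspose * M2) = 0 := by
          rw [← smul_mul_assoc, ← hM2H, h0]
        exact (smul_eq_zero.1 this).resolve_left hb
      open ComplexOrder in exact conjTranspose_mul_self_eq_zero.1 h3
    have h2 : (b⁻¹ * (starRingEnd ℂ) e - e) • (M2 * M2) = 0 := by
      rw [sub_smul, h1, sub_self]
    exact sub_eq_zero.1 ((smul_eq_zero.1 h2).resolve_right hM22)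
  rw [hbe] at hM21
  -- a vector in the other eigenspace
  have hex : ∃ x : Fin 3 → ℂ, M1 *ᵥ x ≠ e • x := by
    by_contra hno
    push Not at hno
    apply hne e
    ext i j
    have := congrFun (hno (Pi.single j 1)) i
    rw [mulVec_single_one] at this
    simp only [Pi.smul_apply, smul_eq_mul, Matrix.smul_apply, Matrix.one_apply, Matrix.col_apply,
      Pi.single_apply] at this ⊢
    rw [this]
  obtain ⟨x0, hx0⟩ := hex
  set u : Fin 3 → ℂ := e • x0 - M1 *ᵥ x0 with hu
  have hu0 : u ≠ 0 := by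
    intro h
    exact hx0 (sub_eq_zero.1 h).symm
  have hMu : M1 *ᵥ u = (-e) • u := by
    rw [hu, mulVec_sub, mulVec_smul, mulVec_mulVec, hM1sq, ← he2, smul_mulVec, one_mulVec,
      smul_sub, smul_smul, neg_smul, neg_mul, neg_smul]
    abel
  have hM2u : M2 *ᵥ u = 0 := by
    have h1 : (M2 * M1) *ᵥ u = e • (M2 *ᵥ u) := by rw [hM21, smul_mulVec]
    rw [← mulVec_mulVec, hMu, mulVec_smul] at h1
    have h2 : (e + e) • (M2 *ᵥ u) = 0 := by
      rw [add_smul]
      nth_rewrite 1 [← h1]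
      rw [neg_smul, neg_add_cancel]
    exact (smul_eq_zero.1 h2).resolve_left (by
      intro h
      apply he0
      linear_combination h / 2)
  -- adjoint relations
  have hadj : ∀ x y : Fin 3 → ℂ, star (M1 *ᵥ x) ⬝ᵥ y = b * (star x ⬝ᵥ (M1 *ᵥ y)) := by
    intro x y
    rw [star_mulVec, ← dotProduct_mulVec, hMH, smul_mulVec, dotProduct_smul, smul_eq_mul]
  have hbe' : (starRingEnd ℂ) e = b * e := by
    have : b * (b⁻¹ * (starRingEnd ℂ) e) = b * e := by rw [hbe]
    rw [← this]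
    field_simp
  have horth : ∀ y : Fin 3 → ℂ, M1 *ᵥ y = e • y → star u ⬝ᵥ y = 0 ∧ star y ⬝ᵥ u = 0 := by
    intro y hy
    have h1 := hadj u y
    rw [hMu, hy, star_smul, smul_dotProduct, dotProduct_smul, smul_eq_mul, smul_eq_mul] at h1
    have h1' : star (-e) = -(b * e) := by
      rw [star_neg]
      exact congrArg _ hbe'
    rw [h1'] at h1
    have h2 : star u ⬝ᵥ y = 0 := by
      have h3 : (b * e) * (star u ⬝ᵥ y) = 0 := by linear_combination (-1/2) * h1
      exact (mul_eq_zero.1 h3).resolve_left (mul_ne_zero hb he0)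
    refine ⟨h2, ?_⟩
    have h4 : star y ⬝ᵥ u = star (star u ⬝ᵥ y) := by
      rw [star_dotProduct]
    rw [h4, h2, star_zero]
  have hM2star : ∀ y : Fin 3 → ℂ, star u ⬝ᵥ (M2 *ᵥ y) = 0 := by
    intro y
    have h1 : M1 *ᵥ (M2 *ᵥ y) = e • (M2 *ᵥ y) := by
      rw [mulVec_mulVec, hMM2, smul_mulVec]
    exact (horth _ h1).1
  -- norms
  have hnn : ∀ x : Fin 3 → ℂ, star x ⬝ᵥ x = ((∑ i, Complex.normSq (x i) : ℝ) : ℂ) := by
    intro x
    simp only [dotProduct, Pi.star_apply]
    push_cast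
    refine Finset.sum_congr rfl fun i _ => ?_
    exact Complex.normSq_eq_conj_mul_self.symm
  have hnonneg : ∀ x : Fin 3 → ℂ, 0 ≤ ∑ i, Complex.normSq (x i) := fun x =>
    Finset.sum_nonneg fun i _ => Complex.normSq_nonneg _
  have hnpos : ∀ x : Fin 3 → ℂ, x ≠ 0 → 0 < ∑ i, Complex.normSq (x i) := by
    intro x hx
    rcases (hnonneg x).lt_or_eq with h | h
    · exact h
    · exfalso
      apply hx
      funext i
      have := (Finset.sum_eq_zero_iff_of_nonneg (fun i _ => Complex.normSq_nonneg _)).1 h.symm i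
        (Finset.mem_univ i)
      exact Complex.normSq_eq_zero.1 this
  -- the main inequality
  have hmain : ∀ y : Fin 3 → ℂ, M1 *ᵥ y = e • y → ∀ t : ℝ, ∃ r : ℝ, 0 ≤ r ∧
      (r : ℂ) = (((∑ i, Complex.normSq (y i)) + t ^ 2 * ∑ i, Complex.normSq (u i) : ℝ) : ℂ) *
        ((((∑ i, Complex.normSq (y i)) - t ^ 2 * ∑ i, Complex.normSq (u i) : ℝ) : ℂ) *
          (e * (star y ⬝ᵥ (M2 *ᵥ y)))) := by
    intro y hy t
    obtain ⟨o1, o2⟩ := horth y hy
    refine ⟨∑ j, ‖ev p (cv (y + (t : ℂ) • u)) j‖ ^ 2, Finset.sum_nonneg fun j _ => by positivity, ?_⟩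
    rw [sum_sq p A hK, hA]
    have hst : star ((t : ℂ) • u) = (t : ℂ) • star u := by
      rw [star_smul]
      congr 1
      exact Complex.conj_ofReal t
    have e1 : dt (cv (y + (t : ℂ) • u)) (y + (t : ℂ) • u) =
        (((∑ i, Complex.normSq (y i)) + t ^ 2 * ∑ i, Complex.normSq (u i) : ℝ) : ℂ) := by
      rw [dt_eq, cv_eq_star, star_add, hst]
      simp only [add_dotProduct, dotProduct_add, smul_dotProduct, dotProduct_smul, smul_eq_mul]
      rw [o1, o2, hnn, hnn]
      push_cast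
      ring
    have e2 : bl M1 (cv (y + (t : ℂ) • u)) (y + (t : ℂ) • u) =
        e * (((∑ i, Complex.normSq (y i)) - t ^ 2 * ∑ i, Complex.normSq (u i) : ℝ) : ℂ) := by
      rw [bl_eq, cv_eq_star, star_add, hst, mulVec_add, mulVec_smul, hMu, hy]
      simp only [add_dotProduct, dotProduct_add, smul_dotProduct, dotProduct_smul, smul_eq_mul]
      rw [o1, o2, hnn, hnn]
      push_cast
      ring
    have e3 : bl M2 (cv (y + (t : ℂ) • u)) (y + (t : ℂ) • u) = star y ⬝ᵥ (M2 *ᵥ y) := by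
      rw [bl_eq, cv_eq_star, star_add, hst, mulVec_add, mulVec_smul, hM2u, smul_zero, add_zero,
        add_dotProduct, smul_dotProduct, hM2star, smul_zero, add_zero]
    rw [e1, e2, e3]
    ring
  have hzero : ∀ y : Fin 3 → ℂ, M1 *ᵥ y = e • y → star y ⬝ᵥ (M2 *ᵥ y) = 0 := by
    intro y hy
    by_cases hy0 : y = 0
    · rw [hy0]; simp
    set κ : ℂ := e * (star y ⬝ᵥ (M2 *ᵥ y)) with hκ
    set ny : ℝ := ∑ i, Complex.normSq (y i) with hny
    set nu : ℝ := ∑ i, Complex.normSq (u i) with hnu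
    have hnyp : 0 < ny := hnpos y hy0
    have hnup : 0 < nu := hnpos u hu0
    obtain ⟨r, hr, hr'⟩ := hmain y hy 0
    obtain ⟨r2, hr2, hr2'⟩ := hmain y hy (Real.sqrt (2 * ny / nu))
    have hsq : Real.sqrt (2 * ny / nu) ^ 2 * nu = 2 * ny := by
      rw [Real.sq_sqrt (by positivity)]
      field_simp
    have q1 : (r : ℂ) = ((ny + (0 : ℝ) ^ 2 * nu : ℝ) : ℂ) * (((ny - (0 : ℝ) ^ 2 * nu : ℝ) : ℂ) * κ) :=
      hr'
    have q2 : (r2 : ℂ) = ((ny + Real.sqrt (2 * ny / nu) ^ 2 * nu : ℝ) : ℂ) *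
        (((ny - Real.sqrt (2 * ny / nu) ^ 2 * nu : ℝ) : ℂ) * κ) := hr2'
    rw [hsq] at q2
    have hr1'' : (r : ℂ) = ((ny * ny : ℝ) : ℂ) * κ := by
      rw [q1]; push_cast; ring
    have hr2'' : (r2 : ℂ) = ((-(3 * ny * ny) : ℝ) : ℂ) * κ := by
      rw [q2]; push_cast; ring
    have hre1 := congrArg Complex.re hr1''
    have him1 := congrArg Complex.im hr1''
    have hre2 := congrArg Complex.re hr2''
    rw [Complex.re_ofReal_mul, Complex.ofReal_re] at hre1 hre2
    rw [Complex.im_ofReal_mul, Complex.ofReal_im] at him1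
    have hκre : κ.re = 0 := by
      have p1 : 0 ≤ ny * ny * κ.re := by rw [← hre1]; exact hr
      have p2 : 0 ≤ -(3 * ny * ny) * κ.re := by rw [← hre2]; exact hr2
      have p3 : ny * ny * κ.re = 0 := by nlinarith
      exact (mul_eq_zero.1 p3).resolve_left (by positivity)
    have hκim : κ.im = 0 := (mul_eq_zero.1 him1.symm).resolve_left (by positivity)
    have hκ0 : κ = 0 := Complex.ext hκre hκim
    exact (mul_eq_zero.1 hκ0).resolve_left he0
  -- all vectors
  have hall : ∀ Y : Fin 3 → ℂ, star Y ⬝ᵥ (M2 *ᵥ Y) = 0 := by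
    intro Y
    -- `Y = y + v`
    set y : Fin 3 → ℂ := (2 * e)⁻¹ • (M1 *ᵥ Y + e • Y) with hy
    set v : Fin 3 → ℂ := (2 * e)⁻¹ • (e • Y - M1 *ᵥ Y) with hv
    have h2e : (2 * e) ≠ 0 := mul_ne_zero two_ne_zero he0
    have hYs : Y = y + v := by
      rw [hy, hv, ← smul_add]
      have : M1 *ᵥ Y + e • Y + (e • Y - M1 *ᵥ Y) = (2 * e) • Y := by
        rw [two_mul, add_smul]; abel
      rw [this, smul_smul, inv_mul_cancel₀ h2e, one_smul]
    have hy1 : M1 *ᵥ y = e • y := by
      rw [hy, mulVec_smul, mulVec_add, mulVec_mulVec, hM1sq, ← he2, smul_mulVec, one_mulVec,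
        mulVec_smul]
      module
    have hv1 : M2 *ᵥ v = 0 := by
      rw [hv, mulVec_smul, mulVec_sub, mulVec_smul, mulVec_mulVec, hM21, smul_mulVec, sub_self,
        smul_zero]
    have hMv : M1 *ᵥ v = (-e) • v := by
      rw [hv, mulVec_smul, mulVec_sub, mulVec_mulVec, hM1sq, ← he2, smul_mulVec, one_mulVec,
        mulVec_smul]
      module
    have hv2 : star v ⬝ᵥ (M2 *ᵥ y) = 0 := by
      have h1 : M1 *ᵥ (M2 *ᵥ y) = e • (M2 *ᵥ y) := by
        rw [mulVec_mulVec, hMM2, smul_mulVec]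
      have h2 := hadj v (M2 *ᵥ y)
      rw [hMv, h1, star_smul, smul_dotProduct, dotProduct_smul, smul_eq_mul, smul_eq_mul] at h2
      have h1' : star (-e) = -(b * e) := by
        rw [star_neg]
        exact congrArg _ hbe'
      rw [h1'] at h2
      have h3 : (b * e) * (star v ⬝ᵥ (M2 *ᵥ y)) = 0 := by linear_combination (-1/2) * h2
      exact (mul_eq_zero.1 h3).resolve_left (mul_ne_zero hb he0)
    rw [hYs, mulVec_add, hv1, add_zero, star_add, add_dotProduct, hv2, add_zero]
    exact hzero y hy1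
  -- polarisation
  have hpol : ∀ Y Z : Fin 3 → ℂ, star Y ⬝ᵥ (M2 *ᵥ Z) = 0 := by
    intro Y Z
    have h1 := hall (Y + Z)
    have h2 := hall (Y + Complex.I • Z)
    have hYY := hall Y
    have hZZ := hall Z
    have hI : star (Complex.I • Z) = (-Complex.I) • star Z := by
      rw [star_smul]
      congr 1
      exact Complex.conj_I
    rw [star_add, mulVec_add] at h1
    rw [star_add, hI, mulVec_add, mulVec_smul] at h2
    simp only [add_dotProduct, dotProduct_add, smul_dotProduct, dotProduct_smul, smul_eq_mul,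
      hYY, hZZ] at h1 h2
    have hI2 := Complex.I_mul_I
    -- h1 : BYZ + BZY = 0 ; h2 : I BYZ - I BZY = 0
    have h3 : Complex.I * (star Y ⬝ᵥ (M2 *ᵥ Z)) - Complex.I * (star Z ⬝ᵥ (M2 *ᵥ Y)) = 0 := by
      linear_combination h2
    have h4 : Complex.I * ((star Y ⬝ᵥ (M2 *ᵥ Z)) - (star Z ⬝ᵥ (M2 *ᵥ Y))) = 0 := by
      linear_combination h3
    have h5 := (mul_eq_zero.1 h4).resolve_left Complex.I_ne_zero
    linear_combination (h1 + h5) / 2
  apply hM20
  ext i j
  have := hpol (Pi.single i 1) (Pi.single j 1)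
  have hs : star (Pi.single i 1 : Fin 3 → ℂ) = Pi.single i 1 := by
    rw [← Pi.single_star, star_one]
  rw [hs, single_dotProduct, one_mul, mulVec_single_one] at this
  simpa using this

end H33.FH
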