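import Pool.Agent.H95.FH.Defs
import Pool.Agent.H87.FG.CASE2

/-!
Part NO3 of the crew FH (`MP_ce7760_an`).
-/

set_option autoImplicit false

open MvPolynomial

namespace H33.FH.NO3
open H95.FG H95.FH

/-- cross product -/
def cr (a b : Fin 3 → ℂ) : Fin 3 → ℂ :=
  ![a 1 * b 2 - a 2 * b 1, a 2 * b 0 - a 0 * b 2, a 0 * b 1 - a 1 * b 0]

theorem dt_cr_left (a b : Fin 3 → ℂ) : dt a (cr a b) = 0 := by
  simp [dt, cr, Fin.sum_univ_three]; ring

theorem dt_cr_self (a b : Fin 3 → ℂ) : dt (cr a b) a = 0 := by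
  simp [dt, cr, Fin.sum_univ_three]; ring

theorem dt_cr_cyc (a h b : Fin 3 → ℂ) : dt (cr a h) b = dt h (cr b a) := by
  simp [dt, cr, Fin.sum_univ_three]; ring

theorem cr_cr (z k e : Fin 3 → ℂ) : cr (cr z k) e = dt z e • k - dt k e • z := by
  funext i
  fin_cases i <;> simp [dt, cr, Fin.sum_univ_three] <;> ring

theorem cr_line (a b : Fin 3 → ℂ) (s t : ℂ) : cr (a + s • b) (a + t • b) = (t - s) • cr a b := by
  funext i
  fin_cases i <;> simp [cr] <;> ring

theorem cr_line2 (a b : Fin 3 → ℂ) (s : ℂ) : cr (a + s • b) b = cr a b := by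
  funext i
  fin_cases i <;> simp [cr] <;> ring

theorem cr_zero (b : Fin 3 → ℂ) : cr 0 b = 0 := by
  funext i
  fin_cases i <;> simp [cr]

theorem cr_smul_self (c : ℂ) (b : Fin 3 → ℂ) : cr b (c • b) = 0 := by
  funext i
  fin_cases i <;> simp [cr] <;> ring

theorem dt_add_right (a b c : Fin 3 → ℂ) : dt a (b + c) = dt a b + dt a c := by
  simp [dt, Fin.sum_univ_three]; ring

theorem dt_add_left (a b c : Fin 3 → ℂ) : dt (a + b) c = dt a c + dt b c := by
  simp [dt, Fin.sum_univ_three]; ring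

theorem dt_sub_left (a b c : Fin 3 → ℂ) : dt (a - b) c = dt a c - dt b c := by
  simp [dt, Fin.sum_univ_three]; ring

theorem dt_smul_right (a b : Fin 3 → ℂ) (c : ℂ) : dt a (c • b) = c * dt a b := by
  simp [dt, Fin.sum_univ_three]; ring

theorem dt_smul_left (a b : Fin 3 → ℂ) (c : ℂ) : dt (c • a) b = c * dt a b := by
  simp [dt, Fin.sum_univ_three]; ring

theorem dt_star_ne (a : Fin 3 → ℂ) (ha : a ≠ 0) : dt (star a) a ≠ 0 := by
  intro h
  apply ha
  have h1 : ((∑ i, Complex.normSq (a i) : ℝ) : ℂ) = 0 := by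
    rw [← h]
    simp only [dt, Pi.star_apply]
    push_cast
    exact Finset.sum_congr rfl fun i _ => Complex.normSq_eq_conj_mul_self
  have h2 : ∑ i, Complex.normSq (a i) = 0 := by exact_mod_cast h1
  funext i
  have := (Finset.sum_eq_zero_iff_of_nonneg (fun i _ => Complex.normSq_nonneg _)).1 h2 i
    (Finset.mem_univ i)
  exact Complex.normSq_eq_zero.1 this

theorem t_NO3 (h1 : S_SIM) (h2 : S_BAS) (h3 : S_PAR) (h4 : S_INJ) (h5 : S_SWAP) : S_NO3 := by
  intro m d p A hc hd3 z hgr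
  have hSIM := fun Y => h1 m d p A hc z Y hgr
  obtain ⟨hK, hpz, -, -, hAY, -⟩ := h2 m d p A hc
  obtain ⟨-, hsw, hdsw, -⟩ := h5 m d p A hc
  obtain ⟨⟨hz, hcp, Y0, hY0, hAY0⟩, -⟩ := hgr
  have hinj := h4 m d p A hc z hz ⟨Y0, hY0, hAY0⟩
  have hpar := (h3 m d p A hc z hinj).1
  have hz0 : z ≠ 0 := by
    rintro rfl
    apply hz
    have := hpz 0 0
    rw [smul_zero, zero_pow (Nat.succ_ne_zero d), zero_smul] at this
    exact this
  have hY00 : Y0 ≠ 0 := by
    rintro rfl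
    apply hAY0
    have := hAY 0 z 0
    rw [smul_zero, zero_pow (by omega), zero_mul] at this
    exact this
  -- basis of the plane
  obtain ⟨e1, he1z, hcr⟩ : ∃ e1 : Fin 3 → ℂ, dt z e1 = 0 ∧ cr e1 Y0 ≠ 0 := by
    refine ⟨cr z (star Y0), dt_cr_left _ _, ?_⟩
    rw [cr_cr, hY0, zero_smul, zero_sub]
    exact neg_ne_zero.2 (smul_ne_zero (dt_star_ne Y0 hY00) hz0)
  -- the polynomial
  set g : Polynomial ℂ := H87.FG.LA (sw A) e1 Y0 z with hg
  have hge : ∀ s, g.eval s = AA A z (e1 + s • Y0) := by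
    intro s
    rw [hg, H87.FG.eval_LA, hsw]
  have hgd := H87.FG.LA_deg (d := d) (sw A) z (fun c x => by rw [hsw, hsw, hAY]) e1 Y0
  rw [hsw] at hgd
  have hgn : g.natDegree = d :=
    le_antisymm hgd.1 (Polynomial.le_natDegree_of_ne_zero (by rw [hgd.2]; exact hAY0))
  have hg0 : g ≠ 0 := by
    intro h
    rw [h] at hgn
    simp at hgn
    omega
  have hroot : ∀ s, g.eval s = 0 → Root A z (e1 + s • Y0) := by
    intro s hs
    refine ⟨?_, ?_, ?_⟩
    · intro h
      apply hcr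
      rw [← cr_line2 e1 Y0 s, h, cr_zero]
    · rw [dt_add_right, dt_smul_right, he1z, hY0]; ring
    · rw [← hge]; exact hs
  have hnodup : g.roots.Nodup := by
    rw [Multiset.nodup_iff_count_le_one]
    intro s
    rw [Polynomial.count_roots]
    by_contra hlt
    push Not at hlt
    have := (Polynomial.one_lt_rootMultiplicity_iff_isRoot hg0).1 hlt
    obtain ⟨r1, r2⟩ := this
    have hR := hroot s r1
    have hd' : dAY A Y0 z (e1 + s • Y0) = 0 := by
      rw [← hdsw, ← H87.FG.deriv_LA]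
      exact r2
    obtain ⟨c, hcc⟩ := (hSIM _ hR).1 Y0 hY0 hd'
    apply hcr
    rw [← cr_line2 e1 Y0 s]
    conv_lhs => rw [hcc]
    have : cr (e1 + s • c • (e1 + s • Y0)) (c • (e1 + s • Y0)) = 0 := by
      rw [← hcc]
      -- `Y0 = c (e1 + s Y0)`
      have hx : cr (e1 + s • Y0) Y0 = cr (e1 + s • Y0) (c • (e1 + s • Y0)) := by rw [← hcc]
      rw [hx, cr_smul_self]
    exact this
  have hcard : 2 < g.roots.toFinset.card := by
    rw [Multiset.toFinset_card_of_nodup hnodup,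
      (Polynomial.splits_iff_card_roots.1 (IsAlgClosed.splits g)), hgn]
    omega
  obtain ⟨s1, m1, s2, m2, s3, m3, n12, n13, n23⟩ := Finset.two_lt_card.1 hcard
  have toE : ∀ s, s ∈ g.roots.toFinset → g.eval s = 0 := by
    intro s hs
    rw [Multiset.mem_toFinset, Polynomial.mem_roots hg0] at hs
    exact hs
  have R1 := hroot s1 (toE s1 m1)
  have R2 := hroot s2 (toE s2 m2)
  have R3 := hroot s3 (toE s3 m3)
  set Y1 := e1 + s1 • Y0 with hY1
  set Y2 := e1 + s2 • Y0 with hY2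
  set Y3 := e1 + s3 • Y0 with hY3
  -- the directions
  have hdir : ∀ Y', Root A z Y' → cr Y1 Y' ≠ 0 → ∃ u, dt u Y' = 0 ∧ dt u Y1 ≠ 0 ∧ dA A u z Y1 = 0 := by
    intro Y' hR' hcr'
    set u := cr Y' (star (cr Y1 Y')) with hu
    have hu1 : dt u Y' = 0 := dt_cr_self _ _
    have hu2 : dt u Y1 ≠ 0 := by
      rw [hu, dt_cr_cyc]
      exact dt_star_ne _ hcr'
    refine ⟨u, hu1, hu2, ?_⟩
    -- `ev (cp p) Y1 = c ev (cp p) Y'`
    have hn := hpar Y' Y1 hR' R1
    rw [LinearIndependent.pair_iff' (hcp Y' hR'.1 hR'.2.1)] at hn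
    push Not at hn
    obtain ⟨c, hcc⟩ := hn
    have hzero : ∀ v, dt v Y' = 0 → dt v Y1 ≠ 0 → AA A v Y1 = 0 := by
      intro v hv1 hv2
      have k1 := hK v Y1
      have k2 := hK v Y'
      rw [hv1, zero_mul] at k2
      have : ∑ j, ev p v j * ev (cp p) Y1 j = c * ∑ j, ev p v j * ev (cp p) Y' j := by
        rw [← hcc, Finset.mul_sum]
        refine Finset.sum_congr rfl fun j _ => ?_
        simp only [Pi.smul_apply, smul_eq_mul]
        ring
      rw [this, k2, mul_zero] at k1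
      exact (mul_eq_zero.1 k1.symm).resolve_left hv2
    have hq : H87.FG.LA A z u Y1 = 0 := by
      apply H87.FG.poly_ext_inf H87.FG.ne_infinite
      intro t ht
      rw [H87.FG.eval_LA, Polynomial.eval_zero]
      apply hzero
      · rw [dt_add_left, dt_smul_left, hR'.2.1, hu1]; ring
      · rw [dt_add_left, dt_smul_left, R1.2.1, zero_add]
        exact mul_ne_zero ht hu2
    have := H87.FG.deriv_LA A z u Y1 0
    rw [hq, Polynomial.derivative_zero, Polynomial.eval_zero, zero_smul, add_zero] at this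
    exact this.symm
  obtain ⟨u2, a1, a2, a3⟩ := hdir Y2 R2 (by
    rw [hY1, hY2, cr_line]
    exact smul_ne_zero (sub_ne_zero.2 n12.symm) hcr)
  obtain ⟨u3, b1, b2, b3⟩ := hdir Y3 R3 (by
    rw [hY1, hY3, cr_line]
    exact smul_ne_zero (sub_ne_zero.2 n13.symm) hcr)
  set w := dt u3 Y1 • u2 - dt u2 Y1 • u3 with hw
  have hw1 : dt w Y1 = 0 := by
    rw [hw, dt_sub_left, dt_smul_left, dt_smul_left]; ring
  have hw2 : dA A w z Y1 = 0 := by
    have : dA A w z Y1 = dt u3 Y1 * dA A u2 z Y1 - dt u2 Y1 * dA A u3 z Y1 := by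
      simp only [dA, hw, Pi.sub_apply, Pi.smul_apply, smul_eq_mul, Finset.mul_sum]
      rw [← Finset.sum_sub_distrib]
      exact Finset.sum_congr rfl fun k _ => by ring
    rw [this, a3, b3]; ring
  obtain ⟨c, hcw⟩ := (hSIM Y1 R1).2 w hw1 hw2
  have hwY2 : dt w Y2 = 0 := by
    rw [hcw, dt_smul_left, R2.2.1, mul_zero]
  have h6 : dt u2 Y1 * dt u3 Y2 = 0 := by
    rw [hw, dt_sub_left, dt_smul_left, dt_smul_left, a1] at hwY2
    linear_combination -hwY2
  have h7 : dt u3 Y2 = 0 := (mul_eq_zero.1 h6).resolve_left a2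
  rw [hY2, dt_add_right, dt_smul_right] at h7
  rw [hY3, dt_add_right, dt_smul_right] at b1
  have h8 : (s2 - s3) * dt u3 Y0 = 0 := by linear_combination h7 - b1
  have h9 : dt u3 Y0 = 0 := (mul_eq_zero.1 h8).resolve_left (sub_ne_zero.2 n23)
  apply b2
  rw [hY1, dt_add_right, dt_smul_right]
  rw [h9] at h7 ⊢
  linear_combination h7

end H33.FH.NO3
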